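import Mathlib
import Pool.Agent.Helper648.NG.Main

set_option autoImplicit false

open Polynomial Filter Topology

namespace Pool.Agent.Results.MP_91c48b_an.AlgebraicGerms

open Pool.Agent.Helper648.NG

/-- Let `r` be any regularity class (`0, 1, 2, …, ∞, ω`), and let `S` be a finite set of elements
of the group `𝒢^r` of germs at `0` of `C^r` diffeomorphisms of `ℝ` fixing `0`.  Assume that every
`s ∈ S` is algebraic: `P(x, s(x)) = 0` near `0` for some nonzero polynomial `P`.  If the germ `g`
of `x - x²` lies in the group generated by `S`, then `g` is undistorted there: there is `c > 0`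
with `l_S(g^n) ≥ c n` for all `n`; in particular `l_S(g^n)/n` does not tend to `0`. -/
theorem result (r : WithTop ℕ∞) (S : Finset (DiffGerm r))
    (hS : ∀ s ∈ S, IsAlgebraicGerm (s : GermMon r))
    (hg : sqGerm r ∈ Subgroup.closure (S : Set (DiffGerm r))) :
    (∃ c : ℝ, 0 < c ∧ ∀ n : ℕ, c * n ≤ wordLength (S : Set (DiffGerm r)) (sqGerm r ^ n)) ∧
      ¬ DistortedIn S (sqGerm r) :=
  undistorted_of_bound S (sqGerm r) (main S hS) hg

end Pool.Agent.Results.MP_91c48b_an.AlgebraicGerms
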